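import Pool.Agent.H54.LQ.Targets

/-!
# Row BQQ of lpq_modules: the cosets of quotients are Borel
-/

set_option autoImplicit false

open Set Filter Topology
open Pool.Agent.H93.CP Pool.Agent.H7.LP Pool.Agent.H7.LQ Pool.Agent.H54.LQ

namespace Pool.Agent.H64.LQ

theorem pf_BQQ (h1 : Pool.Agent.H54.LQ.T_KXA) (h2 : T_DOP) (h3 : T_DEL)
    (h4 : Pool.Agent.H54.LQ.T_BKX) : Pool.Agent.H54.LQ.T_BQQ := by
  intro G X _ _ _ _ _ _ _ _ B L M _ Y k m U hU
  obtain ⟨δ, hδm, hδs, hδd⟩ := h3 G X L M Y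
  have hset : {p : X × G × G | ∃ u ∈ KX B L Y k m p.1 p.2.2, p.2.1 * (p.2.2)⁻¹ * u ∈ U} =
      ⋃ n, ({p : X × G × G | δ k n (p.1, p.2.2) ∈ KX B L Y k m p.1 p.2.2} ∩
        {p : X × G × G | p.2.1 * (p.2.2)⁻¹ * δ k n (p.1, p.2.2) ∈ U}) := by
    ext ⟨x, g', g⟩
    simp only [mem_ofPred_eq, mem_iUnion, mem_inter_iff]
    constructor
    · rintro ⟨u, hu, huU⟩
      obtain ⟨hR, hS, hO, -⟩ := (h1 G X B L M Y k x g).1 m
      have hnb : {v : G | g' * g⁻¹ * v ∈ U} ∈ 𝓝 u :=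
        (hU.preimage (continuous_const.mul continuous_id)).mem_nhds huU
      obtain ⟨n, hn1, hn2, -⟩ := h2 G (KX B L Y k m x g) (KX B L Y k m x g)
        (Stb (L.H k) (lb L Y k x g)) (fun n => δ k n (x, g)) le_rfl hS hO
        (fun n => hδs k n (x, g)) (fun a ha O hO' => hδd k (x, g) a ha O hO') u hu _ hnb
      exact ⟨n, hn1, hn2⟩
    · rintro ⟨n, hn1, hn2⟩
      exact ⟨_, hn1, hn2⟩
  rw [hset]
  have hx : Measurable fun p : X × G × G => (p.1, p.2.2) :=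
    measurable_fst.prodMk (measurable_snd.comp measurable_snd)
  refine MeasurableSet.iUnion fun n => MeasurableSet.inter ?_ ?_
  · exact (hx.prodMk ((hδm k n).comp hx)) (h4 G X B L M Y k m)
  · have hm : Measurable fun p : X × G × G => p.2.1 * (p.2.2)⁻¹ * δ k n (p.1, p.2.2) :=
      ((measurable_fst.comp measurable_snd).mul
        (measurable_snd.comp measurable_snd).inv).mul ((hδm k n).comp hx)
    exact hm hU.measurableSet

end Pool.Agent.H64.LQ
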