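import Pool.Agent.H69.LQ.Lib

/-!
# LQ, row GF: the spectral gap for polynomials on the sphere
-/

set_option autoImplicit false

open MeasureTheory Metric Set
open scoped ENNReal
open Pool.Agent.H85.LK (E adm lam Ann)
open Pool.Agent.H69.LQ

namespace Pool.Agent.H64.LQ

variable {N : ℕ}

theorem ev_add (P Q : MvPolynomial (Fin N) ℝ) (x : E N) : ev (P + Q) x = ev P x + ev Q x := by
  unfold ev
  rw [map_add]

theorem ev_sub (P Q : MvPolynomial (Fin N) ℝ) (x : E N) : ev (P - Q) x = ev P x - ev Q x := by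
  unfold ev
  rw [map_sub]

theorem ev_contDiff (P : MvPolynomial (Fin N) ℝ) : ContDiff ℝ (⊤ : ℕ∞) (ev P) := by
  have h : ev P = fun x : E N => ∑ d ∈ P.support, P.coeff d * ∏ i, x i ^ d i := by
    funext x
    unfold ev
    rw [MvPolynomial.eval_eq']
  rw [h]
  refine ContDiff.sum fun d _ => ?_
  refine contDiff_const.mul ?_
  refine contDiff_prod fun i _ => ?_
  refine ContDiff.pow ?_ _
  fun_prop

theorem ev_diff (P : MvPolynomial (Fin N) ℝ) (x : E N) : DifferentiableAt ℝ (ev P) x :=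
  (ev_contDiff P).differentiable (by simp) x

theorem ev_cont (P : MvPolynomial (Fin N) ℝ) : Continuous (ev P) := (ev_contDiff P).continuous

theorem LL_cont (i j : Fin N) {f : E N → ℝ} (hf : ContDiff ℝ (⊤ : ℕ∞) f) :
    Continuous (LL i j f) := by
  have h : Continuous (fderiv ℝ f) := hf.continuous_fderiv (by simp)
  unfold LL
  fun_prop

theorem LL_add (i j : Fin N) (P Q : MvPolynomial (Fin N) ℝ) (x : E N) :
    LL i j (ev (P + Q)) x = LL i j (ev P) x + LL i j (ev Q) x := by
  have h : ev (P + Q) = fun y : E N => ev P y + ev Q y := funext fun y => ev_add P Q y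
  unfold LL
  rw [h, fderiv_fun_add (ev_diff P x) (ev_diff Q x)]
  simp only [add_apply]
  ring

theorem Gs_nonneg (f : E N → ℝ) (x : E N) : 0 ≤ Gs f x := by
  unfold Gs
  refine mul_nonneg (by norm_num) ?_
  exact Finset.sum_nonneg fun i _ => Finset.sum_nonneg fun j _ => sq_nonneg _

theorem Gs_eq (f : E N → ℝ) (x : E N) : Gs f x = Gb f f x := by
  unfold Gs Gb
  simp only [sq]

theorem Gs_add (P Q : MvPolynomial (Fin N) ℝ) (x : E N) :
    Gs (ev (P + Q)) x = Gs (ev P) x + 2 * Gb (ev Q) (ev P) x + Gs (ev Q) x := by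
  unfold Gs Gb
  simp only [LL_add]
  have h : ∀ i j : Fin N, (LL i j (ev P) x + LL i j (ev Q) x) ^ 2 =
      LL i j (ev P) x ^ 2 + 2 * (LL i j (ev Q) x * LL i j (ev P) x) + LL i j (ev Q) x ^ 2 :=
    fun i j => by ring
  simp only [h, Finset.sum_add_distrib, ← Finset.mul_sum]
  ring

theorem BM_ev (P : MvPolynomial (Fin N) ℝ) : BM (fun θ : Sp N => ev P (θ : E N)) :=
  BM_cont ((ev_cont P).comp continuous_subtype_val)

theorem BM_Gs (P : MvPolynomial (Fin N) ℝ) : BM (fun θ : Sp N => Gs (ev P) (θ : E N)) := by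
  refine BM_cont ?_
  have h : Continuous (Gs (ev P)) := by
    unfold Gs
    refine continuous_const.mul ?_
    refine continuous_finsetSum _ fun i _ => continuous_finsetSum _ fun j _ => ?_
    exact (LL_cont i j (ev_contDiff P)).pow 2
  exact h.comp continuous_subtype_val

theorem BM_Gb (P Q : MvPolynomial (Fin N) ℝ) :
    BM (fun θ : Sp N => Gb (ev P) (ev Q) (θ : E N)) := by
  refine BM_cont ?_
  have h : Continuous (Gb (ev P) (ev Q)) := by
    unfold Gb
    refine continuous_const.mul ?_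
    refine continuous_finsetSum _ fun i _ => continuous_finsetSum _ fun j _ => ?_
    exact (LL_cont i j (ev_contDiff P)).mul (LL_cont i j (ev_contDiff Q))
  exact h.comp continuous_subtype_val

theorem mono_aux (N d n : ℕ) (hN : 2 ≤ N) (h : d ≤ n) :
    (d : ℝ) * (d + N - 2) ≤ (n : ℝ) * (n + N - 2) := by
  have h1 : (d : ℝ) ≤ n := by exact_mod_cast h
  have h2 : (2 : ℝ) ≤ N := by exact_mod_cast hN
  have h3 : (0 : ℝ) ≤ d := Nat.cast_nonneg d
  exact mul_le_mul h1 (by linarith) (by linarith) (by linarith)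

theorem low (N d : ℕ) (P : MvPolynomial (Fin N) ℝ) (hd : d = 0 ∨ P.totalDegree < d)
    (h : ∀ Q : MvPolynomial (Fin N) ℝ, Q.totalDegree < d →
      av (fun θ : Sp N => ev P (θ : E N) * ev Q (θ : E N)) = 0) :
    (d : ℝ) * (d + N - 2) * av (fun θ : Sp N => ev P (θ : E N) ^ 2) ≤
      av fun θ : Sp N => Gs (ev P) (θ : E N) := by
  have h0 : 0 ≤ av fun θ : Sp N => Gs (ev P) (θ : E N) := av_nonneg fun θ => Gs_nonneg _ _
  rcases hd with rfl | hd
  · simpa using h0
  · have h1 := h P hd
    have h2 : av (fun θ : Sp N => ev P (θ : E N) ^ 2) = 0 := by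
      rw [← h1]
      congr 1
      funext θ
      ring
    rw [h2, mul_zero]
    exact h0

theorem pf_GF (_hMP : T_MP) (hPR : T_PR) (hKP : T_KP) : T_GF := by
  intro N d P hN hP
  suffices H : ∀ (D : ℕ) (P : MvPolynomial (Fin N) ℝ), P.totalDegree ≤ D →
      (∀ Q : MvPolynomial (Fin N) ℝ, Q.totalDegree < d →
        av (fun θ : Sp N => ev P (θ : E N) * ev Q (θ : E N)) = 0) →
      (d : ℝ) * (d + N - 2) * av (fun θ : Sp N => ev P (θ : E N) ^ 2) ≤
        av fun θ : Sp N => Gs (ev P) (θ : E N) from H _ P le_rfl hP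
  clear hP P
  intro D
  induction D with
  | zero =>
    intro P hdeg hP
    refine low N d P ?_ hP
    rcases Nat.eq_zero_or_pos d with h | h
    · exact Or.inl h
    · exact Or.inr (lt_of_le_of_lt hdeg h)
  | succ D ih =>
    intro P hdeg hP
    by_cases hlow : d = 0 ∨ P.totalDegree < d
    · exact low N d P hlow hP
    push Not at hlow
    obtain ⟨hd0, hlow⟩ := hlow
    have hdD : d ≤ D + 1 := hlow.trans hdeg
    obtain ⟨P1, hP1, hort⟩ := hPR N D (fun θ : Sp N => ev P (θ : E N)) hN (BM_ev P)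
    obtain ⟨P2, hP2⟩ : ∃ P2, P2 = P - P1 := ⟨_, rfl⟩
    have hev2 : ∀ x : E N, ev P2 x = ev P x - ev P1 x := fun x => by rw [hP2, ev_sub]
    have hsum : P = P1 + P2 := by rw [hP2]; ring
    have hort2 : ∀ Q : MvPolynomial (Fin N) ℝ, Q.totalDegree ≤ D →
        av (fun θ : Sp N => ev P2 (θ : E N) * ev Q (θ : E N)) = 0 := by
      intro Q hQ
      rw [← hort Q hQ]
      congr 1
      funext θ
      rw [hev2]
    -- the hypothesis for `P1`
    have hyp1 : ∀ Q : MvPolynomial (Fin N) ℝ, Q.totalDegree < d →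
        av (fun θ : Sp N => ev P1 (θ : E N) * ev Q (θ : E N)) = 0 := by
      intro Q hQ
      have h1 := hP Q hQ
      have h2 := hort2 Q (by omega)
      have h3 : av (fun θ : Sp N => ev P1 (θ : E N) * ev Q (θ : E N)) =
          av (fun θ : Sp N => ev P (θ : E N) * ev Q (θ : E N)) -
            av (fun θ : Sp N => ev P2 (θ : E N) * ev Q (θ : E N)) := by
        rw [← av_sub ((BM_ev P).mul (BM_ev Q)) ((BM_ev P2).mul (BM_ev Q))]
        congr 1
        funext θ
        rw [hev2]
        ring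
      rw [h3, h1, h2, sub_zero]
    have ih1 := ih P1 hP1 hyp1
    -- Pythagoras
    have hpyth : av (fun θ : Sp N => ev P (θ : E N) ^ 2) =
        av (fun θ : Sp N => ev P1 (θ : E N) ^ 2) + av (fun θ : Sp N => ev P2 (θ : E N) ^ 2) := by
      have h1 := hort2 P1 hP1
      have h2 : av (fun θ : Sp N => ev P (θ : E N) ^ 2) =
          av (fun θ : Sp N => ev P1 (θ : E N) ^ 2) +
            (2 * av (fun θ : Sp N => ev P2 (θ : E N) * ev P1 (θ : E N)) +
              av (fun θ : Sp N => ev P2 (θ : E N) ^ 2)) := by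
        rw [← av_const_mul 2, ← av_add (((BM_ev P2).mul (BM_ev P1)).const_mul _)
          ((BM_ev P2).pow 2), ← av_add ((BM_ev P1).pow 2)
          ((((BM_ev P2).mul (BM_ev P1)).const_mul _).add ((BM_ev P2).pow 2))]
        congr 1
        funext θ
        rw [hsum, ev_add]
        ring
      rw [h2, h1]
      ring
    -- the cross term
    have hcross : av (fun θ : Sp N => Gb (ev P2) (ev P1) (θ : E N)) = 0 := by
      obtain ⟨Q', hQ'1, -, hQ'2⟩ := hKP N D P1 hN hP1
      rw [hQ'2 (ev P2) (ev_contDiff P2)]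
      have h1 := hort2 P1 hP1
      have h2 := hort2 Q' (by omega)
      have h3 : av (fun θ : Sp N => ev P2 (θ : E N) *
          (D * (D + N - 2) * ev P1 (θ : E N) + ev Q' (θ : E N))) =
          (D * (D + N - 2)) * av (fun θ : Sp N => ev P2 (θ : E N) * ev P1 (θ : E N)) +
            av (fun θ : Sp N => ev P2 (θ : E N) * ev Q' (θ : E N)) := by
        rw [← av_const_mul, ← av_add (((BM_ev P2).mul (BM_ev P1)).const_mul _)
          ((BM_ev P2).mul (BM_ev Q'))]
        congr 1
        funext θ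
        ring
      rw [h3, h1, h2]
      ring
    -- the square term
    have hP2deg : P2.totalDegree ≤ D + 1 := by
      rw [hP2]
      refine (MvPolynomial.totalDegree_sub _ _).trans ?_
      exact max_le hdeg (hP1.trans (Nat.le_succ D))
    have hsq : av (fun θ : Sp N => Gs (ev P2) (θ : E N)) =
        ((D + 1 : ℕ) : ℝ) * (((D + 1 : ℕ) : ℝ) + N - 2) *
          av (fun θ : Sp N => ev P2 (θ : E N) ^ 2) := by
      obtain ⟨Q', hQ'1, -, hQ'2⟩ := hKP N (D + 1) P2 hN hP2deg
      have h0 : (fun θ : Sp N => Gs (ev P2) (θ : E N)) =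
          fun θ : Sp N => Gb (ev P2) (ev P2) (θ : E N) := by
        funext θ
        rw [Gs_eq]
      rw [h0, hQ'2 (ev P2) (ev_contDiff P2)]
      have h2 := hort2 Q' (by omega)
      have h3 : av (fun θ : Sp N => ev P2 (θ : E N) *
          (((D + 1 : ℕ) : ℝ) * (((D + 1 : ℕ) : ℝ) + N - 2) * ev P2 (θ : E N) +
            ev Q' (θ : E N))) =
          ((D + 1 : ℕ) : ℝ) * (((D + 1 : ℕ) : ℝ) + N - 2) *
            av (fun θ : Sp N => ev P2 (θ : E N) ^ 2) +
            av (fun θ : Sp N => ev P2 (θ : E N) * ev Q' (θ : E N)) := by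
        rw [← av_const_mul, ← av_add (((BM_ev P2).pow 2).const_mul _)
          ((BM_ev P2).mul (BM_ev Q'))]
        congr 1
        funext θ
        ring
      rw [h3, h2]
      ring
    have hG : av (fun θ : Sp N => Gs (ev P) (θ : E N)) =
        av (fun θ : Sp N => Gs (ev P1) (θ : E N)) + av (fun θ : Sp N => Gs (ev P2) (θ : E N)) := by
      have h2 : av (fun θ : Sp N => Gs (ev P) (θ : E N)) =
          av (fun θ : Sp N => Gs (ev P1) (θ : E N)) +
            (2 * av (fun θ : Sp N => Gb (ev P2) (ev P1) (θ : E N)) +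
              av (fun θ : Sp N => Gs (ev P2) (θ : E N))) := by
        rw [← av_const_mul 2, ← av_add ((BM_Gb P2 P1).const_mul _) (BM_Gs P2),
          ← av_add (BM_Gs P1) (((BM_Gb P2 P1).const_mul _).add (BM_Gs P2))]
        congr 1
        funext θ
        rw [hsum, Gs_add]
        ring
      rw [h2, hcross]
      ring
    have hm := mono_aux N d (D + 1) hN hdD
    have hnn : 0 ≤ av (fun θ : Sp N => ev P2 (θ : E N) ^ 2) := av_sq_nonneg _
    have hm2 := mul_le_mul_of_nonneg_right hm hnn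
    rw [hG, hpyth, hsq, mul_add]
    exact add_le_add ih1 hm2

end Pool.Agent.H64.LQ
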