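import Pool.Agent.H7.LP.Targets3

/-!
# Row SLQ of lpq_modules: the set `W2` is Borel and has a Borel selector

After Pool/Agent/H36/LP/SEL.lean.
-/

set_option autoImplicit false

open Set Filter Topology
open Pool.Agent.H7.LP Pool.Agent.H7.LQ

namespace Pool.Agent.H64.LQ

private theorem closed_aux {G : Type} [Group G] [TopologicalSpace G] [IsTopologicalGroup G]
    (R' R : Subgroup G) (hR : IsClosed (R : Set G)) :
    IsClosed {b : G | ∀ r ∈ R', b⁻¹ * r * b ∈ R} := by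
  have h1 : {b : G | ∀ r ∈ R', b⁻¹ * r * b ∈ R} =
      ⋂ (r : G) (_ : r ∈ R'), (fun b : G => b⁻¹ * r * b) ⁻¹' (R : Set G) := by
    ext b
    simp only [mem_ofPred_eq, mem_iInter, mem_preimage, SetLike.mem_coe]
  rw [h1]
  refine isClosed_iInter fun r => isClosed_iInter fun _ => hR.preimage ?_
  exact (continuous_inv.mul continuous_const).mul continuous_id

/-- a union over the countably many values of a measurable function -/
private theorem meas_cases {Ω : Type} [MeasurableSpace Ω] (f : Ω → ℕ) (hf : Measurable f)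
    (P : ℕ → Ω → Prop) (hP : ∀ q, MeasurableSet {ω | P q ω}) : MeasurableSet {ω | P (f ω) ω} := by
  have h1 : {ω | P (f ω) ω} = ⋃ q : ℕ, (f ⁻¹' {q} ∩ {ω | P q ω}) := by
    ext ω
    simp only [mem_ofPred_eq, mem_iUnion, mem_inter_iff, mem_preimage, mem_singleton_iff]
    constructor
    · intro h
      exact ⟨f ω, rfl, h⟩
    · rintro ⟨q, hq, h⟩
      rw [hq]
      exact h
  rw [h1]
  exact MeasurableSet.iUnion fun q => (hf (MeasurableSet.singleton q)).inter (hP q)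

private theorem meas_iff {Ω : Type} [MeasurableSpace Ω] (P Q : Ω → Prop)
    (hP : MeasurableSet {ω | P ω}) (hQ : MeasurableSet {ω | Q ω}) :
    MeasurableSet {ω | P ω ↔ Q ω} := by
  have h1 : {ω | P ω ↔ Q ω} = ({ω | P ω} ∩ {ω | Q ω}) ∪ ({ω | P ω}ᶜ ∩ {ω | Q ω}ᶜ) := by
    ext ω
    simp only [mem_ofPred_eq, mem_union, mem_inter_iff, mem_compl_iff]
    tauto
  rw [h1]
  exact (hP.inter hQ).union (hP.compl.inter hQ.compl)

/-- the space of structures is standard Borel -/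
private theorem sb_bool : StandardBorelSpace (ℕ × ℕ → Bool) := by
  have h0 : ∀ i : ℕ × ℕ, StandardBorelSpace ((fun _ : ℕ × ℕ => Bool) i) := fun _ => inferInstance
  exact StandardBorelSpace.pi_countable

private theorem sb_left : StandardBorelSpace (ℕ → ℕ × ℕ × (ℕ × ℕ → Bool)) := by
  have h0 := sb_bool
  have h1 : StandardBorelSpace (ℕ × (ℕ × ℕ → Bool)) := StandardBorelSpace.prod
  have h2 : StandardBorelSpace (ℕ × ℕ × (ℕ × ℕ → Bool)) := StandardBorelSpace.prod
  have h3 : ∀ i : ℕ, StandardBorelSpace ((fun _ : ℕ => ℕ × ℕ × (ℕ × ℕ → Bool)) i) := fun _ => h2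
  exact StandardBorelSpace.pi_countable

private theorem sb_right : StandardBorelSpace (ℕ → ℕ → Bool × (ℕ → Bool)) := by
  have h0 : ∀ i : ℕ, StandardBorelSpace ((fun _ : ℕ => Bool) i) := fun _ => inferInstance
  have h1 : StandardBorelSpace (ℕ → Bool) := StandardBorelSpace.pi_countable
  have h2 : StandardBorelSpace (Bool × (ℕ → Bool)) := StandardBorelSpace.prod
  have h3 : ∀ i : ℕ, StandardBorelSpace ((fun _ : ℕ => Bool × (ℕ → Bool)) i) := fun _ => h2
  have h4 : StandardBorelSpace (ℕ → Bool × (ℕ → Bool)) := StandardBorelSpace.pi_countable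
  have h5 : ∀ i : ℕ, StandardBorelSpace ((fun _ : ℕ => ℕ → Bool × (ℕ → Bool)) i) := fun _ => h4
  exact StandardBorelSpace.pi_countable

private theorem sb_St2 : StandardBorelSpace St2 := by
  have h0 := sb_left
  have h1 := sb_right
  exact StandardBorelSpace.prod

private theorem cs_of (α : Type) [MeasurableSpace α] [StandardBorelSpace α] :
    MeasurableSpace.CountablySeparated α := inferInstance

private theorem cs_St2 : MeasurableSpace.CountablySeparated St2 := @cs_of St2 _ sb_St2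

theorem pf_SLQ (h1 : T_SLX) (h2 : T_REQ) (h3 : T_SAQ) (h4 : T_ESQ) (h5 : T_SBQ)
    (h6 : Pool.Agent.H7.LP.T_DIX) (h7 : T_UNR) (h8 : T_LBM) (h9 : T_BCQ) (h10 : T_BSQ)
    (h11 : T_SHQ) (h12 : T_CSE) (h13 : T_LBT) : T_SLQ := by
  intro G X _ _ _ _ _ _ _ _ _ Bb L M _ Y S hM
  obtain ⟨sel, hsel⟩ := h1 G Bb
  obtain ⟨F, hF⟩ := h2 G Bb L sel hsel
  have hFm := hF.meas
  obtain ⟨E, hEm, hE⟩ := h4 G Bb sel F hsel hFm
  obtain ⟨σ, hσm, hσ1, hσ2⟩ := h6 G M hM
  obtain ⟨B, hB⟩ : ∃ B : Set (St2 × X × G), B = {p | σ p.2.2 = p.2.2 ∧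
      (∀ s, Hc Bb (lb L Y (p.1.1 (F p.1 s).1).1 p.2.1 ((F p.1 s).2 * p.2.2))
        (p.1.1 (F p.1 s).1).2.2) ∧
      (∀ s, ∀ r ∈ L.R (p.1.1 (F p.1 (s + 1)).1).1,
        ((F p.1 (s + 1)).2)⁻¹ * r * (F p.1 (s + 1)).2 ∈ L.R s) ∧
      IsCd Bb S p.2.1 (fun i => ((p.1.1 i).1, (p.1.1 i).2.1, E p.1 i * p.2.2)) ∧
      IsSt Bb L Y p.2.1 (fun i => ((p.1.1 i).1, (p.1.1 i).2.1, E p.1 i * p.2.2)) p.1} := ⟨_, rfl⟩
  have hF1 : ∀ s, Measurable fun p : St2 × X × G => (F p.1 s).1 := fun s =>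
    measurable_fst.comp ((hFm s).comp measurable_fst)
  have hF2 : ∀ s, Measurable fun p : St2 × X × G => (F p.1 s).2 := fun s =>
    measurable_snd.comp ((hFm s).comp measurable_fst)
  have hx : Measurable fun p : St2 × X × G => p.2.1 := measurable_fst.comp measurable_snd
  have ha : Measurable fun p : St2 × X × G => p.2.2 := measurable_snd.comp measurable_snd
  have hw : ∀ i, Measurable fun p : St2 × X × G => p.1.1 i := fun i =>
    (measurable_pi_apply i).comp (measurable_fst.comp measurable_fst)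
  have hw1 : ∀ i, Measurable fun p : St2 × X × G => (p.1.1 i).1 := fun i =>
    measurable_fst.comp (hw i)
  have hw2 : ∀ i, Measurable fun p : St2 × X × G => (p.1.1 i).2.1 := fun i =>
    measurable_fst.comp (measurable_snd.comp (hw i))
  have hw3 : ∀ i (c : ℕ × ℕ), Measurable fun p : St2 × X × G => (p.1.1 i).2.2 c := fun i c =>
    (measurable_pi_apply c).comp (measurable_snd.comp (measurable_snd.comp (hw i)))
  have hE' : Measurable fun p : St2 × X × G =>
      (fun i => ((p.1.1 i).1, (p.1.1 i).2.1, E p.1 i * p.2.2)) :=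
    measurable_pi_lambda _ fun i => (hw1 i).prodMk ((hw2 i).prodMk
      (((hEm i).comp measurable_fst).mul ha))
  have hBm : MeasurableSet B := by
    have m1 : MeasurableSet {p : St2 × X × G | σ p.2.2 = p.2.2} :=
      measurableSet_eq_fun (hσm.comp ha) ha
    have m2 : MeasurableSet {p : St2 × X × G |
        ∀ s, Hc Bb (lb L Y (p.1.1 (F p.1 s).1).1 p.2.1 ((F p.1 s).2 * p.2.2))
          (p.1.1 (F p.1 s).1).2.2} := by
      rw [ofPred_forall]
      refine MeasurableSet.iInter fun s => ?_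
      refine meas_cases (fun p : St2 × X × G => (F p.1 s).1) (hF1 s)
        (fun q p => Hc Bb (lb L Y (p.1.1 q).1 p.2.1 ((F p.1 s).2 * p.2.2))
          (p.1.1 q).2.2) fun q => ?_
      refine meas_cases (fun p : St2 × X × G => (p.1.1 q).1) (hw1 q)
        (fun k p => Hc Bb (lb L Y k p.2.1 ((F p.1 s).2 * p.2.2)) (p.1.1 q).2.2) fun k => ?_
      unfold Hc
      rw [ofPred_forall]
      refine MeasurableSet.iInter fun n => ?_
      rw [ofPred_forall]
      refine MeasurableSet.iInter fun j => ?_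
      refine meas_iff _ _ ?_ ?_
      · exact hw3 q (n, j) (MeasurableSet.singleton true)
      · have h14 := h8 G X L M Y k n (Bb.U j) (Bb.opn j)
        exact (hx.prodMk ((hF2 s).mul ha)) h14
    have m3 : MeasurableSet {p : St2 × X × G | ∀ s, ∀ r ∈ L.R (p.1.1 (F p.1 (s + 1)).1).1,
        ((F p.1 (s + 1)).2)⁻¹ * r * (F p.1 (s + 1)).2 ∈ L.R s} := by
      rw [ofPred_forall]
      refine MeasurableSet.iInter fun s => ?_
      refine meas_cases (fun p : St2 × X × G => (F p.1 (s + 1)).1) (hF1 (s + 1))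
        (fun q p => ∀ r ∈ L.R (p.1.1 q).1,
          ((F p.1 (s + 1)).2)⁻¹ * r * (F p.1 (s + 1)).2 ∈ L.R s) fun q => ?_
      refine meas_cases (fun p : St2 × X × G => (p.1.1 q).1) (hw1 q)
        (fun k p => ∀ r ∈ L.R k,
          ((F p.1 (s + 1)).2)⁻¹ * r * (F p.1 (s + 1)).2 ∈ L.R s) fun k => ?_
      have h14 := (closed_aux (L.R k) (L.R s) (L.piece s).cl).measurableSet
      exact hF2 (s + 1) h14
    have m4 : MeasurableSet {p : St2 × X × G |
        IsCd Bb S p.2.1 (fun i => ((p.1.1 i).1, (p.1.1 i).2.1, E p.1 i * p.2.2))} :=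
      (hx.prodMk hE') (h9 G X Bb L M Y S)
    have m5 : MeasurableSet {p : St2 × X × G |
        IsSt Bb L Y p.2.1 (fun i => ((p.1.1 i).1, (p.1.1 i).2.1, E p.1 i * p.2.2)) p.1} :=
      (hx.prodMk (hE'.prodMk measurable_fst)) (h10 G X Bb L M Y)
    rw [hB]
    exact m1.inter (m2.inter (m3.inter (m4.inter m5)))
  have hinj : InjOn (Prod.fst : St2 × X × G → St2) B := by
    rintro ⟨w, x, a⟩ hp ⟨w', x', a'⟩ hp' hww
    simp only at hww
    subst hww
    rw [hB] at hp hp'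
    obtain ⟨p1, p2, p3, -, -⟩ := hp
    obtain ⟨p1', p2', -, -, -⟩ := hp'
    simp only at p1 p2 p3 p1' p2'
    have hlb : ∀ s, lb L Y (w.1 (F w s).1).1 x ((F w s).2 * a) =
        lb L Y (w.1 (F w s).1).1 x' ((F w s).2 * a') := by
      intro s
      funext n
      refine h12 G Bb _ _ ((h13 G X L M Y _ x _).1 n) ((h13 G X L M Y _ x' _).1 n) fun j => ?_
      rw [← p2 s n j, ← p2' s n j]
    obtain ⟨e1, e2⟩ := h7 G X L M Y σ hσ1 hσ2 (fun s => (w.1 (F w s).1).1) (fun s => (F w s).2)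
      x x' a a' p1 p1' hlb p3
    rw [e1, e2]
  have hWB : ∀ w ∈ W2 Bb S, ∃ x a, (w, x, a) ∈ B := by
    rintro w ⟨x0, e0, hc, hs⟩
    obtain ⟨hst, a0, ha0⟩ := h3 G X Bb L M Y S sel F hsel hF x0 e0 w hc hs
    obtain ⟨m, hm, hσm'⟩ := hσ1 a0
    obtain ⟨hc1, hs1⟩ := h11 G X Bb L M Y S x0 (⟨m, hm⟩⁻¹ : M) e0 w hc hs
    have hco : (((⟨m, hm⟩⁻¹ : M) : G))⁻¹ = m := by simp
    rw [hco] at hc1 hs1
    have hKX : ∀ (k j : ℕ) (g : G), KX Bb L Y k j ((⟨m, hm⟩⁻¹ : M) • x0) (g * m) =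
        KX Bb L Y k j x0 g := by
      intro k j g
      unfold KX
      rw [(h13 G X L M Y k x0 (g * m)).2.2.2 (⟨m, hm⟩⁻¹ : M)]
      have e1 : g * m * ((⟨m, hm⟩⁻¹ : M) : G) = g := by simp
      rw [e1]
    have hK : ∀ s, (F w s).2 * σ a0 * ((e0 (F w s).1).2.2 * m)⁻¹ ∈
        KX Bb L Y (e0 (F w s).1).1 (e0 (F w s).1).2.1 ((⟨m, hm⟩⁻¹ : M) • x0)
          ((e0 (F w s).1).2.2 * m) := by
      intro s
      have e1 : (F w s).2 * σ a0 * ((e0 (F w s).1).2.2 * m)⁻¹ =
          (F w s).2 * a0 * ((e0 (F w s).1).2.2)⁻¹ := by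
        rw [hσm']
        group
      rw [e1, hKX]
      exact ha0 s
    obtain ⟨n1, n2, n3⟩ := h5 G X Bb L M Y S sel F E hsel hF hE _ _ w (σ a0) hc1 hs1 hK
    refine ⟨(⟨m, hm⟩⁻¹ : M) • x0, σ a0, ?_⟩
    rw [hB]
    refine ⟨?_, n1, fun s => (hst s).sml, n2, n3⟩
    show σ (σ a0) = σ a0
    conv_lhs => rw [hσm']
    exact hσ2 a0 m hm
  have hW : W2 Bb S = Prod.fst '' B := by
    ext w
    constructor
    · intro hw
      obtain ⟨x, a, h⟩ := hWB w hw
      exact ⟨_, h, rfl⟩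
    · rintro ⟨⟨w', x, a⟩, hp, rfl⟩
      rw [hB] at hp
      exact ⟨x, _, hp.2.2.2.1, hp.2.2.2.2⟩
  have hcs : MeasurableSpace.CountablySeparated St2 := cs_St2
  refine ⟨?_, ?_⟩
  · rw [hW]
    exact hBm.image_of_measurable_injOn measurable_fst hinj
  · have : StandardBorelSpace B := hBm.standardBorel
    have hem : MeasurableEmbedding (fun p : B => p.1.1) := by
      refine Measurable.measurableEmbedding (measurable_fst.comp measurable_subtype_coe) ?_
      intro p p' hpp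
      exact Subtype.ext (hinj p.2 p'.2 hpp)
    obtain ⟨f, hfm, hf⟩ := hem.exists_measurable_extend
      (g := fun p : B => p.1.2.1) (hx.comp measurable_subtype_coe) (fun _ => inferInstance)
    refine ⟨f, hfm, fun w hw => ?_⟩
    obtain ⟨x, a, h⟩ := hWB w hw
    have h14 : f w = x := congrFun hf ⟨(w, x, a), h⟩
    rw [h14]
    rw [hB] at h
    exact ⟨_, h.2.2.2.1, h.2.2.2.2⟩

end Pool.Agent.H64.LQ
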